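import Mathlib
import Pool.Agent.Lib.MP_b1a3a4_al.MVS.Core
import Pool.Agent.Lib.MP_b1a3a4_al.MVS.TH.Core4
import Pool.Agent.Lib.MP_b1a3a4_al.MVS.TH.Main

/-!
# The monoidal virtual surjection conjecture for limit groups

The question as posed: every `S` of type `FP_n` in a direct product of limit groups, every `n`, `m`
and every character `χ`, for the homotopical invariant `Σ^n(S)` and for the homological invariants
`Σ^n(S, ℤ)` and `Σ^n(S, ℚ)`.
-/

namespace Pool.Agent.Results.MP_b1a3a4_al.LimitGroupsTop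

open Pool.Agent.Lib.MP_b1a3a4_al.MVS Pool.Agent.Lib.MP_b1a3a4_al.MVS.HO
  Pool.Agent.Lib.MP_b1a3a4_al.MVS.LG Pool.Agent.Lib.MP_b1a3a4_al.MVS.TH

/-- Let `2 ≤ n ≤ m`, let `L₁, …, L_m` be fully residually free groups (for instance limit groups)
and let `S` be a subgroup of type `FP_n` of their product such that each projection `p_i(S)` is
non-abelian or cyclic (for instance a subdirect product of non-abelian limit groups). Let
`χ : S → ℝ` be a non-zero character with `p_J(S_χ) = p_J(S)` for all `J` with `n` elements, where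
`S_χ = {χ ≥ 0}`. Then `[χ]` lies in `Σ^n(S, ℤ)` and in `Σ^n(S, ℚ)`, and in the homotopical
invariant `Σ^n(S)` if `S` is finitely presented. -/
theorem result (m n : ℕ) (hn : 2 ≤ n) (hm : n ≤ m) (L : Fin m → Type) [∀ i, Group (L i)]
    (hL : ∀ i, FRF (L i)) (S : Subgroup (∀ i, L i))
    (hab : ∀ i, NonAb (pr S i) ∨ IsCyclic (pr S i)) (hS : FPn ℤ S n)
    (χ : S →* Multiplicative ℝ) (hχ : χ ≠ 1) (hc : SameProj S χ n) :
    (Group.IsFinitelyPresented S → InSigmaTop n χ) ∧ InSigma ℤ n χ ∧ InSigma ℚ n χ :=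
  finaltopT m n hn hm L hL S hab hS χ hχ hc

end Pool.Agent.Results.MP_b1a3a4_al.LimitGroupsTop
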