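import Mathlib
import Pool.Agent.Lib.MP_b1a3a4_al.MVS.Core
import Pool.Agent.Lib.MP_b1a3a4_al.MVS.HO.Core2
import Pool.Agent.Lib.MP_b1a3a4_al.MVS.HO.Main2

/-!
# The monoidal virtual surjection conjecture, for all `n` and `m`

Let `S ≤ L₁ × ⋯ × L_m` be of type `FP_n` and virtually surject to `n`-tuples of factors. If `χ ≠ 0`
is a character of `S` with `p_J(S_χ) = p_J(S)` for all `|J| = n`, then `[χ]` lies in `Σ^n(S, ℤ)` and
`Σ^n(S, ℚ)`, and in `Σ²(S)` if `S` is finitely presented, so in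
`Σ^n(S) = Σ²(S) ∩ Σ^n(S, ℤ)` (`n ≥ 2`).
-/

namespace Pool.Agent.Results.MP_b1a3a4_al.MonoidalVSC

open Pool.Agent.Lib.MP_b1a3a4_al.MVS Pool.Agent.Lib.MP_b1a3a4_al.MVS.HO

/-- Let `2 ≤ n ≤ m`, let `L₁, …, L_m` be groups and let `S` be a subgroup of type `FP_n` of their
product. Let `I` be a set of indices such that the projection `p_I` is injective on `S` (for
instance all indices) and such that `p_J(S)` has finite index in the product of the `L_j`, `j ∈ J`,
for all `J ⊆ I` with `n` elements. Let `χ : S → ℝ` be a non-zero character with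
`p_J(S_χ) = p_J(S)` for all `J` with `n` elements, where `S_χ = {χ ≥ 0}`. Then `[χ]` lies in
`Σ^n(S, ℤ)` and in `Σ^n(S, ℚ)`, and in the homotopical invariant `Σ²(S)` if `S` is finitely
presented. -/
theorem result (m n : ℕ) (hn : 2 ≤ n) (hm : n ≤ m) (L : Fin m → Type) [∀ i, Group (L i)]
    (S : Subgroup (∀ i, L i)) (hS : FPn ℤ S n) (I : Finset (Fin m)) (hI : InjOn S I)
    (hVS : VirtSurj S I n) (χ : S →* Multiplicative ℝ) (hχ : χ ≠ 1) (hc : SameProj S χ n) :
    (Group.IsFinitelyPresented S → InSigma2 χ) ∧ InSigma ℤ n χ ∧ InSigma ℚ n χ :=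
  ⟨fun h => finalhoT m n hn hm L S h hS I hI hVS χ hχ hc,
    sigmaT m n hn hm L S hS I hI hVS χ hχ hc⟩

end Pool.Agent.Results.MP_b1a3a4_al.MonoidalVSC
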